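import Mathlib

set_option autoImplicit false

namespace Pool.Agent.Results.MP_443384_al.Counterexample

open Finset Subgroup

/-- Double transversals of `H`. -/
def DT {G : Type} [Group G] (H : Subgroup G) : Set (Set G) :=
  {T | IsComplement T (H : Set G) ∧ IsComplement (H : Set G) T}

/-- `P_G(H) = |DT_G(H)| / |H| ^ (G : H)`. -/
noncomputable def P {G : Type} [Group G] (H : Subgroup G) : ℝ :=
  ((DT H).ncard : ℝ) / (Nat.card H : ℝ) ^ H.index

/-- The transversal probability `tp(G)`. -/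
noncomputable def tp (G : Type) [Group G] : ℝ := ⨅ H : Subgroup G, P H

section
variable {G : Type} [Group G] [Fintype G] [DecidableEq G] {H : Subgroup G} {K : Finset G}

def S (K : Finset G) {n : ℕ} (x : Fin n → G) : Finset (Fin n → G) :=
  {s | (∀ i, (x i)⁻¹ * s i ∈ K) ∧ ∀ i j, s i * (s j)⁻¹ ∈ K → i = j}

def rho (c : G → ℕ) (K : Finset G) (y : G) : ℕ := K.sup fun h => c (h * y)

def fac (c : G → ℕ) (K : Finset G) : List G → ℕ
  | [] => 1
  | x :: l => fac c K l * (#K - (l.map fun z => #{h ∈ K | rho c K (x * h) = rho c K z}).sum)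

def reps (c : G → ℕ) (K : Finset G) (l : List G) : List G :=
  l.filter fun x => ∀ h ∈ K, c (x * h) ≤ c x

variable {c : G → ℕ}

omit [Fintype G] [DecidableEq G] in
lemma rho_eq (hK : ∀ g, g ∈ K ↔ g ∈ H) (hc : c.Injective) (y z : G) :
    rho c K y = rho c K z ↔ y * z⁻¹ ∈ K := by
  have h1 (y z : G) (h : y * z⁻¹ ∈ H) : rho c K y ≤ rho c K z := Finset.sup_le fun k hk => by
    simpa [rho, mul_assoc] using
      le_sup (f := fun h => c (h * z)) ((hK _).mpr (H.mul_mem ((hK _).mp hk) h))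
  refine ⟨fun h => ?_, fun h => (h1 _ _ ((hK _).mp h)).antisymm
    (h1 _ _ (by simpa using H.inv_mem ((hK _).mp h)))⟩
  have hne : K.Nonempty := ⟨1, (hK _).mpr H.one_mem⟩
  obtain ⟨a, ha, e1⟩ := exists_mem_eq_sup K hne fun h => c (h * y)
  obtain ⟨b, hb, e2⟩ := exists_mem_eq_sup K hne fun h => c (h * z)
  rw [eq_inv_mul_of_mul_eq (hc (e1.symm.trans (h.trans e2))), hK]
  simpa [← mul_assoc] using H.mul_mem (H.inv_mem ((hK _).mp ha)) ((hK _).mp hb)

lemma card_S (hK : ∀ g, g ∈ K ↔ g ∈ H) (hc : c.Injective) (l : List G) :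
    #(S K l.get) = fac c K l := by
  induction l with
  | nil => simp [S, fac]
  | cons x l ih =>
    simp only [fac, rho_eq hK hc]
    rw [← ih, card_eq_sum_card_fiberwise (f := Fin.tail) (t := S K l.get) fun s hs => by
      simp only [S, coe_filter, mem_univ, true_and, Set.mem_ofPred_eq] at hs ⊢
      exact ⟨fun i => hs.1 i.succ, fun i j h => Fin.succ_injective _ (hs.2 _ _ h)⟩]
    refine sum_const_nat fun s hs => ?_
    simp only [S, mem_filter, mem_univ, true_and, hK] at hs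
    have h1 : (l.map fun z => #{h ∈ K | x * h * z⁻¹ ∈ K}).sum =
        #{h ∈ K | ∃ j, x * h * (s j)⁻¹ ∈ K} := by
      have : {h ∈ K | ∃ j, x * h * (s j)⁻¹ ∈ K} =
          univ.biUnion fun j => {h ∈ K | x * h * (s j)⁻¹ ∈ K} := by ext; simp
      rw [this, card_biUnion fun i _ j _ hij => disjoint_filter.mpr fun h _ h1 h2 => hij
        (hs.2 i j (by simpa [mul_assoc] using H.mul_mem (H.inv_mem ((hK _).mp h1)) ((hK _).mp h2))),
        ← Fin.sum_univ_fun_getElem]
      refine sum_congr rfl fun j _ => card_bijective (· * ((l.get j)⁻¹ * s j))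
        (Equiv.mulRight _).bijective fun h => ?_
      simp only [mem_filter, hK, H.mul_mem_cancel_right (hs.1 j)]
      simp [mul_assoc]
    rw [h1, eq_tsub_iff_add_eq_of_le (card_filter_le _ _), add_comm,
      ← card_filter_add_card_filter_not (s := K) fun h => ∃ j, x * h * (s j)⁻¹ ∈ K]
    congr 1
    refine card_bij (fun t _ => x⁻¹ * t 0) (fun t ht => ?_) (fun t ht u hu e => ?_) fun h hh => ?_
    · simp only [S, mem_filter, mem_univ, true_and] at ht ⊢
      obtain ⟨⟨h3, h2⟩, rfl⟩ := ht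
      exact ⟨h3 0, fun ⟨j, hj⟩ => (Fin.succ_ne_zero j).symm
        (h2 _ _ (by simpa [Fin.tail] using hj))⟩
    · rw [← Fin.cons_self_tail t, ← Fin.cons_self_tail u, (mem_filter.mp ht).2,
        (mem_filter.mp hu).2, mul_left_cancel e]
    simp only [mem_filter, hK, not_exists] at hh
    refine ⟨Fin.cons (x * h) s, ?_, by simp⟩
    simp only [S, mem_filter, mem_univ, true_and, hK, Fin.tail_cons, and_true]
    refine ⟨Fin.cases (by simpa using hh.1) hs.1, Fin.cases (Fin.cases (fun _ => rfl)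
      fun j h => absurd h (hh.2 j)) fun i => Fin.cases (fun h => absurd ?_ (hh.2 i))
        fun j h => congrArg _ (hs.2 i j h)⟩
    simpa [mul_assoc] using H.inv_mem h

lemma card_DT (hK : ∀ g, g ∈ K ↔ g ∈ H) {n : ℕ} {x : Fin n → G}
    (h1 : ∀ i j, (x i)⁻¹ * x j ∈ H → i = j) (h2 : ∀ g, ∃ i, (x i)⁻¹ * g ∈ H) :
    (DT H).ncard = #(S K x) := by
  rw [← Set.ncard_coe_finset]
  symm
  have key (s : Fin n → G) (hs : ∀ i, (x i)⁻¹ * s i ∈ H) (i j) (h : (s i)⁻¹ * s j ∈ H) : i = j :=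
    h1 i j (by simpa [mul_assoc] using H.mul_mem (H.mul_mem (hs i) h) (H.inv_mem (hs j)))
  refine Set.ncard_congr (fun s _ => Set.range s) (fun s hs => ?_) (fun s t hs ht e => ?_)
    fun T hT => ?_
  · simp only [S, coe_filter, mem_univ, true_and, Set.mem_ofPred_eq, hK] at hs
    have : IsComplement (Set.range s) (H : Set G) := by
      refine isComplement_iff_existsUnique_inv_mul_mem.mpr fun g => ?_
      obtain ⟨i, hi⟩ := h2 g
      have h3 : (s i)⁻¹ * g ∈ H := by
        simpa [mul_assoc] using H.mul_mem (H.inv_mem (hs.1 i)) hi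
      refine ⟨⟨s i, i, rfl⟩, h3, ?_⟩
      rintro ⟨_, j, rfl⟩ hj
      exact Subtype.ext (congrArg s (key s hs.1 j i
        (by simpa [mul_assoc] using H.mul_mem hj (H.inv_mem h3))))
    refine ⟨this, (Nat.bijective_iff_injective_and_card _).mpr ⟨?_, ?_⟩⟩
    · rintro ⟨a, _, i, rfl⟩ ⟨b, _, j, rfl⟩ (e : a.1 * s i = b.1 * s j)
      obtain rfl := hs.2 i j (by
        rw [eq_inv_mul_of_mul_eq e]; simpa [← mul_assoc] using H.mul_mem (H.inv_mem a.2) b.2)
      rw [Subtype.ext (mul_right_cancel e)]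
    rw [Nat.card_prod, mul_comm, this.card_mul_card]
  · simp only [S, coe_filter, mem_univ, true_and, Set.mem_ofPred_eq, hK] at hs ht
    funext i
    obtain ⟨j, hj⟩ : s i ∈ Set.range t := e ▸ ⟨i, rfl⟩
    obtain rfl := h1 i j (by
      simpa [mul_assoc, hj] using H.mul_mem (hs.1 i) (H.inv_mem (ht.1 j)))
    exact hj.symm
  refine ⟨fun i => hT.1.toLeftFun (x i), ?_, Set.ext fun t => ⟨?_, fun ht => ?_⟩⟩
  · simp only [S, coe_filter, mem_univ, true_and, Set.mem_ofPred_eq, hK]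
    refine ⟨fun i => hT.1.inv_mul_toLeftFun_mem _, fun i j h => key _
      (fun i => hT.1.inv_mul_toLeftFun_mem _) i j ?_⟩
    rw [(isComplement_iff_existsUnique_mul_inv_mem.mp hT.2 _).unique h
      (y₂ := hT.1.toLeftFun (x i)) (by simp)]
    simp
  · rintro ⟨i, rfl⟩
    exact Subtype.coe_prop _
  obtain ⟨i, hi⟩ := h2 t
  exact ⟨i, congrArg Subtype.val ((isComplement_iff_existsUnique_inv_mul_mem.mp hT.1 _).unique
    (y₂ := ⟨t, ht⟩) (hT.1.inv_toLeftFun_mul_mem _) (by simpa using H.inv_mem hi))⟩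

lemma P_eq (hK : ∀ g, g ∈ K ↔ g ∈ H) (hc : c.Injective) {l : List G} (hl : ∀ g, g ∈ l)
    (hl' : l.Nodup) : P H = fac c K (reps c K l) / (#K : ℝ) ^ (Nat.card G / #K) := by
  have h0 : Nat.card H = #K := by
    rw [← Fintype.card_coe, ← Nat.card_eq_fintype_card]
    exact Nat.card_congr (Equiv.subtypeEquivRight fun g => (hK g).symm)
  have h1 (x y) (hx : x ∈ reps c K l) (h : x⁻¹ * y ∈ H) : c y ≤ c x := by
    simpa using of_decide_eq_true (List.mem_filter.mp hx).2 _ ((hK _).mpr h)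
  rw [P, card_DT hK (x := (reps c K l).get), card_S hK hc, ← h0, ← H.card_mul_index,
    Nat.mul_div_cancel_left _ Nat.card_pos]
  · exact fun i j h => (hl'.filter _).injective_get (hc ((h1 _ _ (List.get_mem _ j)
      (by have := H.inv_mem h; rwa [mul_inv_rev, inv_inv] at this)).antisymm (h1 _ _ (List.get_mem _ i) h)))
  intro g
  obtain ⟨a, ha, e⟩ := K.exists_max_image (fun h => c (g * h)) ⟨1, (hK _).mpr H.one_mem⟩
  obtain ⟨i, hi⟩ := List.get_of_mem (List.mem_filter.mpr ⟨hl (g * a), decide_eq_true fun h hh =>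
    by simpa [mul_assoc] using e _ ((hK _).mpr (H.mul_mem ((hK _).mp ha) ((hK _).mp hh)))⟩ :
      g * a ∈ reps c K l)
  exact ⟨i, by erw [hi]; simpa using (hK _).mp ha⟩

end

def act (k : Fin 8) (v : Fin 4 × Fin 4) : Fin 4 × Fin 4 :=
  match k.val % 4 with
  | 0 => v
  | 1 => (v.1 + v.1 + v.2, v.1)
  | 2 => (v.1 + v.2 + v.2, v.1 + v.1 + v.2)
  | _ => (v.2, v.1 + v.2 + v.2)

/-- The group `(C₄ × C₄) ⋊ C₈`. -/
def G : Type := (Fin 4 × Fin 4) × Fin 8

instance : DecidableEq G := inferInstanceAs (DecidableEq ((Fin 4 × Fin 4) × Fin 8))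
instance : Fintype G := inferInstanceAs (Fintype ((Fin 4 × Fin 4) × Fin 8))
instance : Mul G := ⟨fun x y => (x.1 + act x.2 y.1, x.2 + y.2)⟩
instance : One G := ⟨(0, 0)⟩
instance : Inv G := ⟨fun x => (-act (-x.2) x.1, -x.2)⟩

instance : Group G := Group.ofLeftAxioms (fun x y z => Prod.ext (by
    have h1 : ∀ k u v, act k (u + v) = act k u + act k v := by decide +kernel
    have h2 : ∀ k l v, act (k + l) v = act k (act l v) := by decide +kernel
    change x.1 + act x.2 y.1 + act (x.2 + y.2) z.1 = x.1 + act x.2 (y.1 + act y.2 z.1)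
    rw [h1, h2, add_assoc]) (add_assoc x.2 y.2 z.2)) (by decide +kernel) (by decide +kernel)

def all : List G := (List.finRange 4 ×ˢ List.finRange 4) ×ˢ List.finRange 8

def code (x : G) : ℕ := x.1.1.val + 4 * x.1.2.val + 16 * x.2.val

def K (g : G) : Finset G := (range 8).image (g ^ ·)

lemma mem_K (g x : G) : x ∈ K g ↔ x ∈ zpowers g := by
  have : ∀ g : G, g ^ 8 = 1 := by decide +kernel
  refine ⟨fun h => ?_, fun h => ?_⟩
  · obtain ⟨i, -, rfl⟩ := mem_image.mp h
    exact npow_mem_zpowers g i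
  obtain ⟨i, rfl⟩ := mem_powers_iff_mem_zpowers.mpr h
  exact mem_image.mpr ⟨i % 8, mem_range.mpr (Nat.mod_lt _ (by norm_num)),
    (pow_eq_pow_mod i (this g)).symm⟩

def gens : Fin 8 → List G := ![
  [((0, 0), 0)],
  [((0, 0), 4), ((0, 2), 0)],
  [((0, 2), 4), ((2, 0), 0)],
  [((2, 0), 4), ((2, 2), 0), ((2, 2), 4)],
  [((0, 0), 2), ((0, 1), 2), ((0, 1), 6), ((0, 2), 2), ((0, 3), 2)],
  [((0, 3), 6), ((1, 0), 2), ((1, 0), 6), ((1, 1), 0), ((1, 1), 2)],
  [((1, 1), 4), ((1, 2), 2), ((1, 2), 6), ((1, 3), 0), ((1, 3), 2)],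
  [((1, 3), 4), ((2, 0), 2), ((2, 2), 2), ((3, 1), 2), ((3, 3), 2)]]

abbrev Ok (K : Finset G) : Prop :=
  4 ^ 8 * 8 ^ 4 * 24 ^ 4 * #K ^ (128 / #K) < fac code K (reps code K all) * 4 ^ 32

lemma ok0 : ∀ g ∈ gens 0, Ok (K g) := by decide +kernel
lemma ok1 : ∀ g ∈ gens 1, Ok (K g) := by decide +kernel
lemma ok2 : ∀ g ∈ gens 2, Ok (K g) := by decide +kernel
lemma ok3 : ∀ g ∈ gens 3, Ok (K g) := by decide +kernel
lemma ok4 : ∀ g ∈ gens 4, Ok (K g) := by decide +kernel
lemma ok5 : ∀ g ∈ gens 5, Ok (K g) := by decide +kernel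
lemma ok6 : ∀ g ∈ gens 6, Ok (K g) := by decide +kernel
lemma ok7 : ∀ g ∈ gens 7, Ok (K g) := by decide +kernel

def gs : List G := [((0, 0), 1), ((1, 0), 0)]

lemma check (g : G) (h : ∀ x ∈ gs, x * g ^ 2 * x⁻¹ ∈ K g) : Ok (K g) := by
  have : ∀ g : G, (∀ x ∈ gs, x * g ^ 2 * x⁻¹ ∈ K g) → ∃ i, ∃ h ∈ gens i, K g = K h := by
    decide +kernel
  obtain ⟨i, h, hh, e⟩ := this g h
  rw [e]
  fin_cases i
  exacts [ok0 h hh, ok1 h hh, ok2 h hh, ok3 h hh, ok4 h hh, ok5 h hh, ok6 h hh, ok7 h hh]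

lemma check' : fac code (K ((1, 0), 0)) (reps code (K ((1, 0), 0)) all) =
    4 ^ 8 * 8 ^ 4 * 24 ^ 4 ∧
    #(K ((1, 0), 0)) = 4 := by
  decide +kernel

/-- A group of order 128 in which no cyclic `p`-subgroup of index at most `p` over its core
attains the transversal probability. -/
theorem result : ∃ (G : Type) (_ : Group G) (_ : Finite G), Nontrivial G ∧
    ∀ p : ℕ, p.Prime → p ∣ Nat.card G → ∀ H : Subgroup G, IsCyclic H → IsPGroup p H →
      H.normalCore.relIndex H ≤ p → tp G < P H := by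
  have hc : Nat.card G = 128 := by rw [Nat.card_eq_fintype_card]; rfl
  have ha : ∀ g, g ∈ all := by decide +kernel
  refine ⟨G, inferInstance, inferInstance, Finite.one_lt_card_iff_nontrivial.mp (by omega),
    fun p hp hd H hH _ hi => ?_⟩
  obtain rfl := (Nat.prime_dvd_prime_iff_eq hp Nat.prime_two).mp
    (hp.dvd_of_dvd_pow (n := 7) (by rwa [hc] at hd))
  obtain ⟨g, rfl⟩ := (Subgroup.isCyclic_iff_exists_zpowers_eq_top H).mp hH
  refine (ciInf_le (Finite.bddBelow_range _) (zpowers (G := G) ((1, 0), 0))).trans_lt ?_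
  have h1 : g ^ 2 ∈ (zpowers g).normalCore := by
    have := pow_mem_of_index_ne_zero_of_dvd (H := (zpowers g).normalCore.subgroupOf (zpowers g))
      FiniteIndex.index_ne_zero ⟨g, mem_zpowers g⟩ (n := 2) fun m h1 h2 => by
        have := h2.trans hi
        interval_cases m <;> simp
    exact this
  have h2 := check g fun x _ => (mem_K _ _).mpr (h1 x)
  have h3 : 0 < #(K g) := card_pos.mpr ⟨1, (mem_K _ _).mpr (one_mem _)⟩
  have h4 : code.Injective := fun ⟨⟨_, _⟩, _⟩ ⟨⟨_, _⟩, _⟩ h => by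
    simp only [code] at h
    refine Prod.ext (Prod.ext ?_ ?_) ?_ <;> ext <;> dsimp only <;> omega
  have h5 : all.Nodup := ((List.nodup_finRange 4).product (List.nodup_finRange 4)).product
    (List.nodup_finRange 8)
  rw [P_eq (mem_K _) h4 ha h5, P_eq (mem_K _) h4 ha h5, check'.1, check'.2, hc,
    div_lt_div_iff₀ (by norm_num) (pow_pos (Nat.cast_pos.mpr h3) _)]
  unfold Ok at h2
  generalize fac code (K g) (reps code (K g) all) = a, #(K g) = b at h2 ⊢
  exact_mod_cast h2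

end Pool.Agent.Results.MP_443384_al.Counterexample
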